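import Mathlib
import Pool.Agent.H.MP_50682e_co.A

set_option autoImplicit false

namespace Pool.Agent.Results.MP_50682e_co.No

open Pool.Agent.H.MP_50682e_co

theorem result :
    (∀ s m : ℕ, 4 ≤ s → 2 ≤ m →
      (∃ G : SimpleGraph (Fin (2 + m * s)), Sat G (2 * s + 1) ∧ G.edgeSet.ncard ≤ m * (s + 1)) ∧
      (sat (2 + m * s) (2 * s + 1) : ℤ) < ⌈(5 * ((2 + m * s : ℕ) : ℚ)) / 4 - 3 / 2⌉) ∧
    ¬ ∀ r : ℕ, 5 ≤ r → ∃ n₀ : ℕ, ∀ n : ℕ, n₀ ≤ n →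
      (sat n r : ℤ) = ⌈(5 * (n : ℚ)) / 4 - 3 / 2⌉ := by
  have key : ∀ s m : ℕ, 4 ≤ s → 2 ≤ m →
      (∃ G : SimpleGraph (Fin (2 + m * s)), Sat G (2 * s + 1) ∧ G.edgeSet.ncard ≤ m * (s + 1)) ∧
      (sat (2 + m * s) (2 * s + 1) : ℤ) < ⌈(5 * ((2 + m * s : ℕ) : ℚ)) / 4 - 3 / 2⌉ := by
    intro s m hs hm
    obtain ⟨G, h1, h2⟩ := main m s hm (by omega)
    rw [show 2 * (s + 1) - 1 = 2 * s + 1 by omega] at h1
    refine ⟨⟨G, h1, h2⟩, ?_⟩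
    have h3 : sat (2 + m * s) (2 * s + 1) ≤ m * (s + 1) :=
      le_trans (b := G.edgeSet.ncard) (Nat.sInf_le ⟨G, h1, rfl⟩) h2
    rw [Int.lt_ceil]
    have h4 : ((sat (2 + m * s) (2 * s + 1) : ℕ) : ℚ) ≤ m * (s + 1) := by exact_mod_cast h3
    have h5 : (4 : ℚ) ≤ s := by exact_mod_cast hs
    have h6 : (0 : ℚ) ≤ m := by positivity
    push_cast
    nlinarith
  refine ⟨key, fun h => ?_⟩
  obtain ⟨n₀, hn⟩ := h 9 (by norm_num)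
  have := (key 4 (n₀ + 2) le_rfl (by omega)).2
  rw [hn _ (by omega)] at this
  exact lt_irrefl _ this

end Pool.Agent.Results.MP_50682e_co.No
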